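import Pool.Agent.Helper84.SV.Stmt

set_option autoImplicit false

namespace Pool.SV.SharpCones

open Pool.SV

/-- **Closed quotients of sharp convex cones have zero simplicial volume.**

`C` is a nonempty open convex cone of `ℝ^(n+1)` containing no line, and `Γ` a group of linear
automorphisms of `ℝ^(n+1)` preserving `C` and acting on it freely, properly discontinuously and
cocompactly. `M` is the quotient `C / Γ`, a closed affine manifold of dimension `n + 1`. Then
every real singular cycle of degree `n + 1` of `M` is homologous to cycles of arbitrarily small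
`ℓ¹`-norm. -/
theorem sharp_cones (n : ℕ) (Γ : Subgroup (Aff (n + 1))) (C : Set (EuclideanSpace ℝ (Fin (n + 1))))
    (hC : Divides Γ C) (hcone : ∀ t : ℝ, 0 < t → ∀ x ∈ C, t • x ∈ C)
    (hsharp : ∀ v : EuclideanSpace ℝ (Fin (n + 1)), v ≠ 0 → ∃ x ∈ C, ∃ t : ℝ, x + t • v ∉ C)
    (hlin : ∀ g ∈ Γ, g 0 = 0) (M : Type*) [TopologicalSpace M] (π : C → M)
    (hπ : IsOrbitSpace Γ C M π) : ZeroSeminorm M n :=
  fun z hz ε hε => main_cone n Γ C hC.isOpen hC.convex hC.nonempty hcone hsharp hlin hC.inv
    hC.free hC.pd hC.cocompact M π hπ.quot hπ.fib z hz ε hε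

end Pool.SV.SharpCones
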